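import Pool.Agent.P8H64.GH.Jan

set_option autoImplicit false

/-!
# The generalized Beilinson conjecture in bounded dimension and trilinear forms (MP_3af9db_ag, Q1)

Definitions: `hypS` (the hypersurface `T(x, y, z) = 1` of a trilinear form `T`) is in
`Pool/Agent/Y116/UV/Defs.lean`; `bilS` (the system of the bilinear equations `∑ T_{ijl} x_i y_j = 0`) in
`Pool/Agent/Q282/UK/Bil.lean`; `DimAll`, `DimSmooth`, `ForTri`, `ForBlock`, `ForBil` in
`Pool/Agent/P8H64/GH/Dims.lean`; `HThy` (motivic and `ℓ`-adic Borel-Moore homology, with the known properties
which are used), `HThy.Holds`, `HThy.IsIso` and `IsTB` in `Pool/Agent/P8H64/GH/Jan.lean`.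

`T.Holds X` is the generalized conjecture of Tate and Beilinson for `X` in all bidegrees (Jannsen): the
regulators `H_i^M(X, ℚ(j)) ⊗ ℚ_ℓ → H_i(X̄, ℚ_ℓ(j))` are isomorphisms onto the invariants of Frobenius, and the
eigenvalue `1` of Frobenius is semisimple. For `i = 2 j` this contains the bijectivity of `cl_j`
(`T.IsIso X j`).

The theorem: for every finite field `k` and every `d`, the conjecture for all separated schemes of dimension at
most `d` is equivalent to the conjecture for the hypersurfaces `T(x, y, z) = 1`, where `T` is a trilinear form
over `k` with `d + 2` variables `z` and any numbers of variables `x` and `y`, and it implies the conjecture for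
all systems of bilinear equations in which one of the three numbers - the number of the variables `x`, the
number of the variables `y`, the number of the equations - is at most `d + 2`.

The case `d = 1` is known (Weil, Quillen, Harder). So the conjecture is true for the hypersurfaces
`T(x, y, z) = 1` in which one of the blocks of variables has at most three variables, and for the systems of
at most three bilinear equations in any number of variables, and of any number of bilinear equations in
at most three variables `x` and any number of variables `y`; these schemes can have any dimension and any
singularities.

The closure properties of `T.Holds` are proved by the five lemma for the generalised eigenspaces of Frobenius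
(`Pool.Agent.W495.FM.five`); the equivalence with trilinear forms is a theorem of the starting files for all
properties of this kind (`Pool.Agent.Z125.UN.dim_tri`).
-/

namespace Pool.Agent.Results.MP_3af9db_ag.BoundedDimension

open Pool.Agent.Y116.UV Pool.Agent.P8H64.GH Pool.Agent.P8H64.GH.Jan

/-- Let `k` be a finite field. For every `d` the following are equivalent: the generalized conjecture of Tate
and Beilinson for all separated schemes of finite type over `k` of dimension at most `d`; the same for
the smooth ones; the same for the hypersurfaces `T(x, y, z) = 1` with `d + 2` variables `z`; the same for the
hypersurfaces `T(x, y, z) = 1` in which one of the three blocks of variables has at most `d + 2` variables. If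
they are true, the conjecture is true for all systems of bilinear equations with at most `d + 2` variables in
one of the two blocks or at most `d + 2` equations.

The conjecture is true for all hypersurfaces `T(x, y, z) = 1` in which one of the blocks has at most three
variables, and for all systems of bilinear equations with at most three variables in one of the two blocks or
at most three equations; in particular all their cycle class maps `cl_n` are isomorphisms onto the invariants
of Frobenius. -/
theorem result (k : Type) [Field k] [Finite k] {Ω : Type} [Field Ω] [CharZero Ω] (T : HThy k Ω) :
    (∀ d : ℕ, List.TFAE [DimAll k True T.Holds d, DimSmooth k True T.Holds d, ForTri k T.Holds (d + 2),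
      ForBlock k T.Holds (d + 2)] ∧ (DimAll k True T.Holds d → ForBil k T.Holds (d + 2))) ∧
    ForBlock k T.Holds 3 ∧ ForBil k T.Holds 3 ∧ ForBlock k (fun X => ∀ n, T.IsIso X n) 3 ∧
    ForBil k (fun X => ∀ n, T.IsIso X n) 3 := by
  have h1 := dim_one T
  have h2 := ((dims T 1).1.out 0 3 : DimAll k True T.Holds 1 ↔ ForBlock k T.Holds (1 + 2)).1 h1
  have h3 := (dims T 1).2 h1
  exact ⟨fun d => dims T d, h2, h3, fun a b c S hS n => (h2 a b c S hS).isIso n,
    fun a b c S hS n => (h3 a b c S hS).isIso n⟩

end Pool.Agent.Results.MP_3af9db_ag.BoundedDimension
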