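import Pool.Agent.P8H64.GH.Jan

set_option autoImplicit false

/-!
# The generalized Beilinson conjecture over `𝔽_p` and graph hypersurfaces (MP_3af9db_ag, Q1)

Definitions: `lap` (the reduced weighted Laplacian), `kirchhoff`, `sparseDet`, `ConeSplit` are in
`Pool/Agent/P8H64/GH/Graph.lean`; `GLRing`, `CRing`, `HRing` in `Pool/Agent/P8H64/GH/Main.lean`; `ForAll`,
`ForSmooth`, `ForSparse`, `ForCompl`, `ForConeCompl`, `ForHyp`, `ForConeHyp` in `Pool/Agent/P8H64/GH/Tfae.lean`;
`HThy` (motivic and `ℓ`-adic Borel-Moore homology, with the known properties which are used), `HThy.Holds`,
`HThy.IsIso` and `IsTB` in `Pool/Agent/P8H64/GH/Jan.lean`.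

`T.Holds X` is the generalized conjecture of Tate and Beilinson for `X` in all bidegrees (Jannsen): the
regulators `H_i^M(X, ℚ(j)) ⊗ ℚ_ℓ → H_i(X̄, ℚ_ℓ(j))` are isomorphisms onto the invariants of Frobenius, and the
eigenvalue `1` of Frobenius is semisimple. For `i = 2 j` this contains the bijectivity of `cl_j`. For all
varieties over a finite field together it is equivalent to the conjectures of Tate and Beilinson with
semisimplicity for smooth projective varieties (Jannsen, Geisser, de Jong). A variety over a finite extension
of `𝔽_p` can be considered over `𝔽_p`; this does not change its Chow groups nor the invariants of Frobenius in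
its homology.

Proof. `T.Holds` is closed under closed-open decompositions, by the five lemma for the generalised
eigenspaces of Frobenius, it passes to Jouanolou's affine bundles and back, and from `X × 𝔾_m` to `X`. The
theorem holds for all properties of this kind.

1. (`glgood_of_split`, `graphBij`) The complement of the graph hypersurface of a cone over a split graph is
  the space of the invertible symmetric matrices `[[A, X], [Xᵗ, Δ]]`, with `A` arbitrary, `Δ` diagonal, and
  `X` with prescribed zeros. If the property is true for these, it is true for those with `Δ = 0`, by
  induction on the number of the zeros of `Δ`: where the entry `δ` of `Δ` is a unit, the column of `δ` can be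
  cleared, which changes only `A`. For `Δ = 0` and `X` square the matrix is invertible iff `X` is invertible.
  This gives the schemes `GL_S` of the invertible matrices with prescribed zeros.
2. (`good_pat`) The same for the invertible matrices with prescribed zeros and with ones at the places of a
  forest, as these are the quotient of the open part where the entries are units by a torus.
3. (`good_vanish`) Let `Q` be a matrix of linear forms as in 2. Bordering `Q` by one row and one column of
  new variables one obtains the locus where `Q` is invertible and a given entry of the adjugate of `Q`
  vanishes, and several such equations, if they are imposed one after the other, by the bundle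
  `∑ c_t y_t = 1` over the complement of `c = 0`.
4. (`good_vw`, `good_bil`) With 3 one obtains the spaces of the pairs `(V, W)` of matrices with prescribed
  zeros and with ones on forests such that `V W` has prescribed zeros, and every system of bilinear equations
  `∑ T_{ijl} x_i y_j = 0` with coefficients zero and one is such a space. These systems generate all schemes of
  finite type over `ℤ/p` (`clo_universal`).
-/

namespace Pool.Agent.Results.MP_3af9db_ag.GraphHypersurfaces

open Pool.Agent.Y116.UV Pool.Agent.P8H64.GH Pool.Agent.P8H64.GH.Jan

/-- The following statements are equivalent, where `T.Holds X` is the generalized conjecture of Tate and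
Beilinson for `X` in all bidegrees, for all of these `X` over `ℤ/p`:

1. all separated schemes of finite type;
2. all smooth ones;
3. the schemes `GL_S` of the invertible matrices with zeros outside of `S`, for all finite sets `S` of places;
4. the complements of the graph hypersurfaces of all graphs;
5. the same for the cones over split graphs;
6. the graph hypersurfaces of all graphs;
7. the same for the cones over split graphs.

So if it is true for 5, then all cycle class maps `cl_n` of all separated schemes of finite type over `ℤ/p` are
isomorphisms onto the invariants of Frobenius. -/
theorem result {p : ℕ} [Fact p.Prime] {Ω : Type} [Field Ω] [CharZero Ω] (T : HThy (ZMod p) Ω) :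
    List.TFAE [ForAll (ZMod p) True T.Holds, ForSmooth (ZMod p) True T.Holds, ForSparse (ZMod p) T.Holds,
      ForCompl (ZMod p) T.Holds, ForConeCompl (ZMod p) T.Holds, ForHyp (ZMod p) T.Holds,
      ForConeHyp (ZMod p) T.Holds] ∧
    (ForConeCompl (ZMod p) T.Holds → ∀ X : Sch (ZMod p), FT True X → ∀ n, T.IsIso X n) := by
  refine ⟨main T, fun h X hX n => ?_⟩
  have h1 := ((main T).out 4 0 : ForConeCompl (ZMod p) T.Holds ↔ ForAll (ZMod p) True T.Holds).1 h
  exact (h1 X hX).isIso n

end Pool.Agent.Results.MP_3af9db_ag.GraphHypersurfaces
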