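import Pool.Agent.P8H27.RF.TB

/-!
# Cycle class maps for schemes over finite fields generated by abelian varieties whose traces of
Frobenius lie in a totally real Galois field with at most two primes above `p`

Let `L` be a totally real number field, Galois over `ℚ`, with at most two prime ideals above the
prime number `p`: for instance `ℚ`, any real quadratic field, a field in which `p` is inert or
totally ramified, or the maximal real subfield of `ℚ(ζ_N)` if `p` and `-1` generate a subgroup of
index at most two of the group of units modulo `N`.

Over an algebraic closure of the field with `p` elements each abelian variety is isogenous to the
reduction of an abelian variety of CM type (Honda, Tate). So an abelian variety over the field with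
`p ^ a` elements is modelled by `RedAV`: a finite product of CM types `(E i, Φ i)` with Weil numbers
`π i ∈ E i` that satisfy the formula of Shimura and Taniyama; its cohomology of degree `n`, with
coefficients in an algebraically closed field `Ω`, consists of the alternating `n`-forms on
`Ω ⊗ H_1`, on which the Frobenius endomorphism acts by `π`.

We consider all abelian varieties `Y` over finite fields of characteristic `p` such that, up to
supersingular factors, the traces `π ^ s + (q / π) ^ s` of a power of Frobenius lie in `L`
(`HasTracesIn`), and that are ordinary up to the supersingular factors, or more generally have equal
slopes (up to duality, at each place) for Frobenius eigenvalues that generate the same quadratic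
extension of `L` (`EqualSlopes`). The CM fields of `Y` are arbitrary CM fields whose maximal real
subfields have embeddings in `L` (in general there are infinitely many), and the dimension of `Y` is
arbitrary. Examples are all products of elliptic curves (`L = ℚ`), all products of elliptic curves
and of ordinary abelian surfaces with real multiplication by a given real quadratic field `L`, and
products of Jacobians of Kloosterman curves `y ^ p - y = x + a / x`, `p ≠ 2` (`L = ℚ(ζ_p)⁺`).

`Homology Ω V` are data of motivic homology `M X i j = H_i^M(X, ℚ(j))` (with
`M X (2 i) i = CH_i(X)`) and of `ℓ`-adic homology `E X i j = H_i(X, ℚ_ℓ(j))` (coefficients extended to
`Ω`) of schemes `X` over a finite field. The class `Generated` contains the abelian varieties above,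
it contains the schemes whose motives are direct summands of finite sums of twists of motives of
members, and it contains all of `Z`, `X`, `U = X ∖ Z` if it contains two of them. It contains for
instance all products of curves whose Jacobians are as above and of open subsets of such curves, their
symmetric powers, and the singular and the open varieties with a stratification by such varieties.

The theorem, for all schemes `X` of this class - smooth or not, proper or not:

* the cycle class maps of `X` are bijective (onto the invariants of Frobenius, after extension of
  scalars) for the cycles of all dimensions `i`, and the eigenvalue one of the Frobenius is
  semisimple (`IsIso`);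
* for an arbitrary closed subscheme `Z` of `X`, of dimension at most `d`, the same holds for the
  complement `U = X ∖ Z` and the cycles of dimension `i ≥ d`. Here `Z` has dimension at most `d` means
  that its homology vanishes in degrees above `2 d` and that the cycle class map is surjective in
  dimension `d`, with semisimple eigenvalue one (the homology of degree `2 d` is spanned by the
  classes of the irreducible components).

Properties of the theory of cycles on abelian varieties that are used (`IsChow`, `IsMotivic`):
Poincaré duality, the formal properties of correspondences, the nilpotence of homologically trivial
correspondences (Kimura), the operation of the Frobenius endomorphism on higher Chow groups, the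
vanishing of the higher rational `K`-groups of a finite field (Quillen), and the algebraicity of the
classes in `Alg` (of which only products of classes of divisors matter here, theorem of Tate). The
passage from the Tate conjecture to all degrees and to the class `Generated` is due to Soulé, Geisser,
Kahn and Jannsen; it was formalized in the starting files. New is the theorem that the Tate classes
on the abelian varieties `Y` are generated by the Tate classes of degree two (`tate_alg`).
-/

namespace Pool.Agent.Results.MP_3af9db_ag.TracesInRealField

open NumberField Pool.Agent.W495.TA Pool.Agent.W495.FM Pool.Agent.P8H27.RF

/-- **Cycle class maps of the members of the class generated by the abelian varieties with traces in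
`L` and of complements of closed subschemes.** -/
theorem result (p : ℕ) [Fact p.Prime] (ν : PadicAlgCl p ≃+* ℂ) (L : Type) [Field L] [NumberField L]
    [IsTotallyReal L] [IsGalois ℚ L] (hL : numPrimes p L ≤ 2) (Ω : Type) [Field Ω]
    [IsAlgClosed Ω] [CharZero Ω] (V : Type) (T : Homology Ω V) (hT : IsHomology T)
    (hW : HasWeights T) (X : V) (hX : Generated T (IsTracesAbelian p ν L T) X) :
    (∀ i, IsIso T X i) ∧ ∀ Z U d, IsTriple T Z X U →
      ((∀ n j, 2 * d < n → ∀ e : T.E Z n j, e = 0) ∧ IsOnto T Z d) → ∀ i, d ≤ i → IsIso T U i :=
  ⟨fun i => (tb_traces hL hT hX).iso hT i, fun Z U d h hZ i hi =>
    isoAbove_traces hL hT hW Z X U d h hX hZ i hi⟩

end Pool.Agent.Results.MP_3af9db_ag.TracesInRealField
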